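import Pool.Agent.W259.GP.Main
import Pool.Agent.W259.GP.Fin

/-! MP_ef2672_gt: an upper bound for Hermite's constant: `limsup γ_n / n ≤ 1 / π ^ 2`. -/

open Filter

namespace Pool.Agent.Results.MP_ef2672_gt.HermitePiSquared

open Pool.Agent.H390R2.LP

theorem result :
    limsup (fun n : ℕ => hermite n / n) atTop ≤ 1 / Real.pi ^ 2 ∧
    ∀ ε : ℝ, 0 < ε → ∀ᶠ n : ℕ in atTop, hermite n / n ≤ 1 / Real.pi ^ 2 + ε :=
  ⟨Pool.Agent.W259.GP.limsup_hermite Pool.Agent.W259.GP.s_main,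
    Pool.Agent.W259.GP.hermite_bound Pool.Agent.W259.GP.s_main⟩

end Pool.Agent.Results.MP_ef2672_gt.HermitePiSquared
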